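import Pool.Agent.H91.TF.Nv1c

set_option autoImplicit false

namespace Pool.Agent.H74.TF

open Finset Equiv MvPolynomial

namespace NV1

/-- operators which commute with left translations commute with `evF` -/
theorem comm_ev (F : Type) [Field F] (m k : ℕ)
    (evF : MvPolynomial (Fin m ⊕ Fin k) F →ₐ[F] Module.End F (Perm (Pt m k) → F)) (hF : IsEv evF)
    (D : Module.End F (Perm (Pt m k) → F)) (hD : ∀ g ψ, D (LL F m k g ψ) = LL F m k g (D ψ))
    (f : MvPolynomial (Fin m ⊕ Fin k) F) : ∀ ψ, D (evF f ψ) = evF f (D ψ) := by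
  induction f using MvPolynomial.induction_on with
  | C a =>
    intro ψ
    rw [MvPolynomial.algHom_C, Module.algebraMap_end_apply, Module.algebraMap_end_apply, map_smul]
  | add p q hp hq =>
    intro ψ
    rw [map_add, LinearMap.add_apply, map_add, LinearMap.add_apply, hp, hq]
  | mul_X p c hp =>
    intro ψ
    rw [map_mul, Module.End.mul_apply, Module.End.mul_apply, hp, hF c]
    congr 1
    unfold JJ JM
    rw [LinearMap.sum_apply, LinearMap.sum_apply, map_sum]
    apply Finset.sum_congr rfl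
    intro y _
    exact hD _ _

theorem e1_coeff (F : Type) [Field F] {m k : ℕ} (T : Fil m k) (j : ℕ) :
    (T.e1 F).coeff j = aeval (xyF F T) (aeval (s1 F m k) (esymm (Fin m × Bool) F j)) := by
  have h1 : T.e1 F = ∏ x : Fin m × Bool,
      (1 + Polynomial.C (aeval (xyF F T) (s1 F m k x)) * Polynomial.X : Polynomial F) := by
    rw [Fintype.prod_prod_type]
    unfold Fil.e1
    apply Finset.prod_congr rfl
    intro i _
    rw [Fintype.prod_bool, mul_comm]
    simp [s1, xyF]
  rw [h1, coeff_prod, ← AlgHom.comp_apply, comp_aeval]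

theorem e2_coeff (F : Type) [Field F] {m k : ℕ} (T : Fil m k) (j : ℕ) :
    (T.e2 F).coeff j = aeval (xyF F T) (aeval (s2 F m k) (esymm (Pt m k) F j)) := by
  have h1 : T.e2 F = ∏ x : Pt m k,
      (1 + Polynomial.C (aeval (xyF F T) (s2 F m k x)) * Polynomial.X : Polynomial F) := by
    rw [Fintype.prod_sum_type, Fintype.prod_prod_type]
    unfold Fil.e2 Fil.e1
    congr 1
    · apply Finset.prod_congr rfl
      intro i _
      rw [Fintype.prod_bool, mul_comm]
      simp [s2, s1, xyF]
    · apply Finset.prod_congr rfl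
      intro i _
      simp [s2, xyF]
  rw [h1, coeff_prod, ← AlgHom.comp_apply, comp_aeval]

theorem pow_act (F U S : Type) [Field F] [AddCommGroup U] [Module F U] [CommRing S] [Algebra F S]
    (E : S →ₐ[F] Module.End F U) (v : U) (D : Module.End F U) (Q : S) (d : F)
    (h : ∀ f, D (E f v) = E (Q * f) v) (n : ℕ) : ∀ f,
    ((D - d • (1 : Module.End F U)) ^ n) (E f v) = E ((Q - algebraMap F S d) ^ n * f) v := by
  induction n with
  | zero => intro f; simp
  | succ n ih =>
    intro f
    rw [pow_succ, Module.End.mul_apply]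
    have : (D - d • (1 : Module.End F U)) (E f v) = E ((Q - algebraMap F S d) * f) v := by
      rw [LinearMap.sub_apply, h, sub_mul, map_sub, LinearMap.sub_apply, map_mul E (algebraMap F S d),
        AlgHom.commutes, Module.End.mul_apply, Module.algebraMap_end_apply, LinearMap.smul_apply,
        Module.End.one_apply]
    rw [this, ih, ← mul_assoc, pow_succ]

end NV1

open NV1

theorem t_NV1 (hEV : C_EV) (hCOM : C_COM) (hOUT : C_OUT) (hINN : C_INN) (hSYMM : C_SYMM)
    (hESY : C_ESY) (hTRI : C_TRI) (hNV0 : C_NV0) (hV0 : C_V0) : C_NV1 := by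
  intro p F _ _ m k T hp hW
  have h2 : ∀ a : F, a + a = 0 → a = 0 := by
    intro a ha
    have h3 : (2 : F) ≠ 0 := by
      intro h4
      have h5 : ((2 : ℕ) : F) = 0 := by exact_mod_cast h4
      rw [CharP.cast_eq_zero_iff F p] at h5
      have h6 := Nat.le_of_dvd (by norm_num) h5
      have h7 : p ≠ 1 := CharP.char_ne_one F p
      obtain ⟨t, ht⟩ := hp
      omega
    have h4 : (2 : F) * a = 0 := by rw [two_mul]; exact ha
    rcases mul_eq_zero.mp h4 with h | h
    · exact absurd h h3
    · exact h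
  obtain ⟨evF, hF⟩ := exists_evs hEV hCOM F m k
  obtain ⟨LF, hLF⟩ := exists_LF hEV hCOM hTRI hSYMM hNV0 hESY F m k T evF hF
  obtain ⟨hI1, hI2, hI3, hI4⟩ := hINN F m k evF hF
  have hO := hOUT F m k evF hF
  obtain ⟨hE1, hE2, hE3⟩ := hESY F m k
  let A : MvPolynomial (Fin m ⊕ Fin k) F →ₐ[F] Module.End F (Perm (Pt m k) → F) :=
    evF.comp (aeval (es F m k))
  let θ : MvPolynomial (Fin m ⊕ Fin k) F →ₐ[F] F := (aeval (xyF F T)).comp (aeval (es F m k))
  have hLA : ∀ q, LF (A q (v0 F m k)) = θ q := fun q => hLF q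
  obtain ⟨N, r, hr1, hr2⟩ := nak F _ _ A θ (by
    intro q hq
    rw [← hLA, hq, LinearMap.zero_apply, map_zero])
  have hact1 : ∀ j, ∀ f, RJ F m k j (evF f (v0 F m k))
      = evF (aeval (s1 F m k) (esymm (Fin m × Bool) F j) * f) (v0 F m k) := by
    intro j f
    rw [comm_ev F m k evF hF _ (fun g ψ => hI2 j g ψ), hI1, ← Module.End.mul_apply, ← map_mul,
      mul_comm]
  have hact2 : ∀ j, ∀ f, csum (LL F m k) j (evF f (v0 F m k))
      = evF (aeval (s2 F m k) (esymm (Pt m k) F j) * f) (v0 F m k) := by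
    intro j f
    rw [comm_ev F m k evF hF _ (fun g ψ => by
      have := LinearMap.congr_fun (hI4 j g).eq ψ
      simpa only [Module.End.mul_apply] using this), hO, ← Module.End.mul_apply, ← map_mul,
      mul_comm]
  have hbis : BiSym (aeval (es F m k) r) := (hE1 _).mpr ⟨r, rfl⟩
  have hw : evF (aeval (es F m k) r) (v0 F m k) ∈ WW F m k (T.e1 F) (T.e2 F) := by
    refine ⟨⟨?_, ?_⟩, ?_⟩
    · exact (hV0.2.2 F m k).2.2.2.1 (hSYMM F m k evF h2 hF _ hbis)
    · show _ ∈ (⨅ j, Module.End.maxGenEigenspace (RJ F m k j) ((T.e1 F).coeff j))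
      rw [Submodule.mem_iInf]
      intro j
      rw [Module.End.mem_maxGenEigenspace]
      refine ⟨N, ?_⟩
      rw [pow_act F _ _ evF (v0 F m k) (RJ F m k j) _ _ (hact1 j)]
      obtain ⟨q, hq⟩ := (hE1 _).mp (hE2 j)
      have h3 : θ (q - algebraMap F _ ((T.e1 F).coeff j)) = 0 := by
        rw [map_sub, AlgHom.commutes, e1_coeff, ← hq]
        exact sub_self _
      have h4 := hr2 _ h3
      have h5 : A ((q - algebraMap F _ ((T.e1 F).coeff j)) ^ N * r)
          = evF ((aeval (s1 F m k) (esymm (Fin m × Bool) F j)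
            - algebraMap F _ ((T.e1 F).coeff j)) ^ N * aeval (es F m k) r) := by
        show evF (aeval (es F m k) _) = _
        rw [map_mul, map_pow, map_sub, hq, AlgHom.commutes]
      rw [← h5, h4, LinearMap.zero_apply]
    · show _ ∈ (⨅ j, Module.End.maxGenEigenspace (csum (LL F m k) j) ((T.e2 F).coeff j))
      rw [Submodule.mem_iInf]
      intro j
      rw [Module.End.mem_maxGenEigenspace]
      refine ⟨N, ?_⟩
      rw [pow_act F _ _ evF (v0 F m k) (csum (LL F m k) j) _ _ (hact2 j)]
      obtain ⟨q, hq⟩ := (hE1 _).mp (hE3 j)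
      have h3 : θ (q - algebraMap F _ ((T.e2 F).coeff j)) = 0 := by
        rw [map_sub, AlgHom.commutes, e2_coeff, ← hq]
        exact sub_self _
      have h4 := hr2 _ h3
      have h5 : A ((q - algebraMap F _ ((T.e2 F).coeff j)) ^ N * r)
          = evF ((aeval (s2 F m k) (esymm (Pt m k) F j)
            - algebraMap F _ ((T.e2 F).coeff j)) ^ N * aeval (es F m k) r) := by
        show evF (aeval (es F m k) _) = _
        rw [map_mul, map_pow, map_sub, hq, AlgHom.commutes]
      rw [← h5, h4, LinearMap.zero_apply]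
  rw [hW, Submodule.mem_bot] at hw
  have h6 := hLA r
  rw [show A r (v0 F m k) = evF (aeval (es F m k) r) (v0 F m k) from rfl, hw, map_zero, hr1] at h6
  exact zero_ne_one h6

end Pool.Agent.H74.TF
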