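import Pool.Agent.H74.TF.Stm

set_option autoImplicit false

namespace Pool.Agent.H74.TF

open Finset Equiv MvPolynomial

theorem VAL_JJ (R : Type) [CommRing R] (m k : ℕ) (x : Pt m k) (ψ : Perm (Pt m k) → R)
    (g : Perm (Pt m k)) :
    JJ R m k x ψ g = ∑ y : Pt m k with rk y < rk x, ψ (swap y x * g) := by
  unfold JJ JM
  rw [LinearMap.sum_apply, Finset.sum_apply]
  apply Finset.sum_congr rfl
  intro y _
  show ψ ((swap y x)⁻¹ * g) = _
  rw [Equiv.swap_inv]

theorem t_VAL : C_VAL := by
  intro R _ m k evs hev cs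
  induction cs with
  | nil => intro g; simp [val]
  | cons c cs ih =>
    intro g
    rw [List.map_cons, List.prod_cons, map_mul, hev c, Module.End.mul_apply, VAL_JJ]
    show _ = ∑ y : Pt m k with rk y < rk (ctr c), val R cs (swap y (ctr c) * g)
    apply Finset.sum_congr rfl
    intro y _
    exact ih _

end Pool.Agent.H74.TF
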