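import Pool.Agent.H74.TF.Stm

set_option autoImplicit false

namespace Pool.Agent.H74.TF

open Finset Equiv MvPolynomial

namespace NV1

theorem JJ_apply (R : Type) [CommRing R] (m k : ℕ) (x : Pt m k) (ψ : Perm (Pt m k) → R)
    (g : Perm (Pt m k)) :
    JJ R m k x ψ g = ∑ y : Pt m k with rk y < rk x, ψ (swap y x * g) := by
  unfold JJ JM
  rw [LinearMap.sum_apply, Finset.sum_apply]
  apply Finset.sum_congr rfl
  intro y _
  show ψ ((swap y x)⁻¹ * g) = _
  rw [Equiv.swap_inv]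

/-- existence of the evaluation -/
theorem exists_evs (hEV : C_EV) (hCOM : C_COM) (R : Type) [CommRing R] (m k : ℕ) :
    ∃ evs : MvPolynomial (Fin m ⊕ Fin k) R →ₐ[R] Module.End R (Perm (Pt m k) → R), IsEv evs := by
  have hrk : Function.Injective (rk : Pt m k → ℕ) := by
    intro x y h
    rcases x with ⟨i, b⟩ | r <;> rcases y with ⟨j, c⟩ | s
    · simp only [rk] at h
      have h1 : (i : ℕ) = j ∧ b = c := by
        cases b <;> cases c <;> simp at h ⊢ <;> omega
      rw [Fin.ext h1.1, h1.2]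
    · exfalso
      simp only [rk] at h
      have := i.2
      cases b <;> simp at h <;> omega
    · exfalso
      simp only [rk] at h
      have := j.2
      cases c <;> simp at h <;> omega
    · simp only [rk] at h
      have h1 : (r : ℕ) = s := by omega
      rw [Fin.ext h1]
  obtain ⟨h1, -⟩ := hCOM R (Pt m k) (Perm (Pt m k) → R) (LL R m k) rk hrk
  obtain ⟨ev, hev⟩ := hEV R (Module.End R (Perm (Pt m k) → R)) (Fin m ⊕ Fin k)
    (fun c => JJ R m k (ctr c)) (fun x y => h1 _ _)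
  exact ⟨ev, hev⟩

/-- values in `F` of an integral function -/
def cst (F : Type) [Field F] {α : Type} (ψ : α → ℤ) : α → F := fun g => ((ψ g : ℤ) : F)

theorem evs_cst (F : Type) [Field F] (m k : ℕ)
    (evZ : MvPolynomial (Fin m ⊕ Fin k) ℤ →ₐ[ℤ] Module.End ℤ (Perm (Pt m k) → ℤ)) (hZ : IsEv evZ)
    (evF : MvPolynomial (Fin m ⊕ Fin k) F →ₐ[F] Module.End F (Perm (Pt m k) → F)) (hF : IsEv evF)
    (f : MvPolynomial (Fin m ⊕ Fin k) ℤ) : ∀ ψ : Perm (Pt m k) → ℤ,
    evF (map (Int.castRingHom F) f) (cst F ψ) = cst F (evZ f ψ) := by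
  induction f using MvPolynomial.induction_on with
  | C a =>
    intro ψ
    rw [map_C, MvPolynomial.algHom_C, MvPolynomial.algHom_C]
    ext g
    simp [cst]
  | add p q hp hq =>
    intro ψ
    rw [map_add, map_add, map_add, LinearMap.add_apply, LinearMap.add_apply, hp, hq]
    ext g
    simp [cst]
  | mul_X p c hp =>
    intro ψ
    rw [map_mul, map_X, map_mul, map_mul, Module.End.mul_apply, Module.End.mul_apply, hF c, hZ c,
      ← hp]
    congr 1
    ext g
    rw [JJ_apply]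
    simp only [cst]
    rw [JJ_apply]
    push_cast
    rfl

theorem v0_cst (F : Type) [Field F] (m k : ℕ) : v0 F m k = cst F (v0 ℤ m k) := by
  ext g
  unfold v0 cst
  push_cast
  rfl

/-- `SE` over the integers is saturated -/
theorem sat (m k : ℕ) (n : ℤ) (hn : n ≠ 0) (ψ : Perm (Pt m k) → ℤ) (h : n • ψ ∈ SE ℤ m k) :
    ψ ∈ SE ℤ m k := by
  intro g a b ha
  obtain ⟨h1, h2⟩ := h g a b ha
  constructor
  · have : n * ψ (g * iot a b) = n * (sg b • ψ g) := by
      rw [Pi.smul_apply, Pi.smul_apply, smul_eq_mul, smul_eq_mul] at h1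
      rw [h1, smul_eq_mul, smul_eq_mul]
      ring
    exact mul_left_cancel₀ hn this
  · have : n * ψ (iot a b * g) = n * (sg b • ψ g) := by
      rw [Pi.smul_apply, Pi.smul_apply, smul_eq_mul, smul_eq_mul] at h2
      rw [h2, smul_eq_mul, smul_eq_mul]
      ring
    exact mul_left_cancel₀ hn this

/-- functionals on `SE` over the integers extend -/
theorem extend (m k : ℕ) (Ω : SE ℤ m k →ₗ[ℤ] ℤ) :
    ∃ L : (Perm (Pt m k) → ℤ) →ₗ[ℤ] ℤ, ∀ ψ : SE ℤ m k, L ψ = Ω ψ := by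
  have : Module.IsTorsionFree ℤ ((Perm (Pt m k) → ℤ) ⧸ SE ℤ m k) := by
    apply Module.IsTorsionFree.of_smul_eq_zero
    intro n q h
    obtain ⟨ψ, rfl⟩ := Submodule.Quotient.mk_surjective _ q
    rw [← Submodule.Quotient.mk_smul, Submodule.Quotient.mk_eq_zero] at h
    by_cases hn : n = 0
    · left; exact hn
    · right
      rw [Submodule.Quotient.mk_eq_zero]
      exact sat m k n hn ψ h
  have : Module.Free ℤ ((Perm (Pt m k) → ℤ) ⧸ SE ℤ m k) :=
    Module.free_of_finite_type_torsion_free'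
  obtain ⟨s, hs⟩ := Module.projective_lifting_property (SE ℤ m k).mkQ LinearMap.id
    (Submodule.mkQ_surjective _)
  let D : (Perm (Pt m k) → ℤ) →ₗ[ℤ] (Perm (Pt m k) → ℤ) :=
    LinearMap.id - s ∘ₗ (SE ℤ m k).mkQ
  have hD : ∀ ψ, D ψ = ψ - s ((SE ℤ m k).mkQ ψ) := fun ψ => rfl
  have hmem : ∀ ψ, D ψ ∈ SE ℤ m k := by
    intro ψ
    rw [← Submodule.Quotient.mk_eq_zero]
    have h1 := LinearMap.congr_fun hs ((SE ℤ m k).mkQ ψ)
    rw [LinearMap.comp_apply, LinearMap.id_apply] at h1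
    rw [hD, Submodule.Quotient.mk_sub]
    rw [← Submodule.mkQ_apply (SE ℤ m k) (s _), h1, Submodule.mkQ_apply, sub_self]
  refine ⟨Ω ∘ₗ LinearMap.codRestrict (SE ℤ m k) D hmem, ?_⟩
  intro ψ
  rw [LinearMap.comp_apply]
  congr 1
  apply Subtype.ext
  rw [LinearMap.codRestrict_apply, hD]
  have : (SE ℤ m k).mkQ (ψ : Perm (Pt m k) → ℤ) = 0 := by
    rw [Submodule.mkQ_apply, Submodule.Quotient.mk_eq_zero]
    exact ψ.2
  rw [this, map_zero, sub_zero]

/-- the integral functional -/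
theorem exists_L (hTRI : C_TRI) (hSYMM : C_SYMM) (hNV0 : C_NV0) (m k : ℕ) (T : Fil m k)
    (evZ : MvPolynomial (Fin m ⊕ Fin k) ℤ →ₐ[ℤ] Module.End ℤ (Perm (Pt m k) → ℤ)) (hZ : IsEv evZ) :
    ∃ L : (Perm (Pt m k) → ℤ) →ₗ[ℤ] ℤ, ∀ f, BiSym f →
      L (evZ f (v0 ℤ m k)) = aeval (Sum.elim T.x T.y) f := by
  have h2 : ∀ a : ℤ, a + a = 0 → a = 0 := by intro a ha; omega
  have hex : ∀ ψ : SE ℤ m k, ∃ f, BiSym f ∧ evZ f (v0 ℤ m k) = ψ := fun ψ =>
    hTRI ℤ m k evZ h2 hZ ψ ψ.2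
  choose c hc1 hc2 using hex
  have hsub : ∀ f f' : MvPolynomial (Fin m ⊕ Fin k) ℤ, BiSym f → BiSym f' →
      evZ f (v0 ℤ m k) = evZ f' (v0 ℤ m k) →
      aeval (Sum.elim T.x T.y) f = (aeval (Sum.elim T.x T.y) f' : ℤ) := by
    intro f f' hf hf' h
    have h3 : BiSym (f - f') := by
      intro π π'
      rw [map_sub, hf, hf']
    have h4 := hNV0 m k T evZ hZ (f - f') h3 (by rw [map_sub, LinearMap.sub_apply, h, sub_self])
    rw [map_sub] at h4
    exact sub_eq_zero.mp h4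
  let Ω : SE ℤ m k →ₗ[ℤ] ℤ :=
    { toFun := fun ψ => aeval (Sum.elim T.x T.y) (c ψ)
      map_add' := by
        intro ψ ψ'
        rw [← map_add]
        apply hsub _ _ (hc1 _)
        · intro π π'
          rw [map_add, hc1, hc1]
        · rw [hc2, map_add, LinearMap.add_apply, hc2, hc2]
          rfl
      map_smul' := by
        intro a ψ
        rw [RingHom.id_apply, ← map_smul]
        apply hsub _ _ (hc1 _)
        · intro π π'
          rw [map_smul, hc1]
        · rw [hc2, map_smul, LinearMap.smul_apply, hc2]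
          rfl }
  obtain ⟨L, hL⟩ := extend m k Ω
  refine ⟨L, fun f hf => ?_⟩
  have hmem : evZ f (v0 ℤ m k) ∈ SE ℤ m k := hSYMM ℤ m k evZ h2 hZ f hf
  have := hL ⟨_, hmem⟩
  rw [show L (evZ f (v0 ℤ m k)) = L ((⟨_, hmem⟩ : SE ℤ m k) : Perm (Pt m k) → ℤ) from rfl, this]
  show aeval (Sum.elim T.x T.y) (c ⟨_, hmem⟩) = _
  exact hsub _ _ (hc1 _) hf (hc2 _)

end NV1

end Pool.Agent.H74.TF
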