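import Pool.Agent.H91.TF.Nv1a

set_option autoImplicit false

namespace Pool.Agent.H74.TF

open Finset Equiv MvPolynomial

namespace NV1

/-- the values of the variables in `F` -/
def xyF (F : Type) [Field F] {m k : ℕ} (T : Fil m k) : Fin m ⊕ Fin k → F :=
  fun c => ((Sum.elim T.x T.y c : ℤ) : F)

theorem map_es (F : Type) [Field F] (m k : ℕ) (c : Fin m ⊕ Fin k) :
    map (Int.castRingHom F) (es ℤ m k c) = es F m k c := by
  rcases c with i | r
  · show map (Int.castRingHom F) (rename Sum.inl (esymm (Fin m) ℤ (i + 1))) = _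
    rw [map_rename, map_esymm]
    rfl
  · show map (Int.castRingHom F) (rename Sum.inr (esymm (Fin k) ℤ (r + 1))) = _
    rw [map_rename, map_esymm]
    rfl

theorem aeval_map (F : Type) [Field F] (m k : ℕ) (f : MvPolynomial (Fin m ⊕ Fin k) ℤ) :
    aeval (es F m k) (map (Int.castRingHom F) f) = map (Int.castRingHom F) (aeval (es ℤ m k) f) := by
  induction f using MvPolynomial.induction_on with
  | C a =>
    rw [map_C, MvPolynomial.algHom_C, MvPolynomial.algHom_C]
    show C _ = map _ (C a)
    rw [map_C]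
  | add p q hp hq => rw [map_add, map_add, map_add, map_add, hp, hq]
  | mul_X p c hp => rw [map_mul, map_mul, map_mul, map_mul, hp, map_X, aeval_X, aeval_X, map_es]

theorem eval_map' (F : Type) [Field F] {m k : ℕ} (T : Fil m k)
    (f : MvPolynomial (Fin m ⊕ Fin k) ℤ) :
    aeval (xyF F T) (map (Int.castRingHom F) f) = ((aeval (Sum.elim T.x T.y) f : ℤ) : F) := by
  induction f using MvPolynomial.induction_on with
  | C a =>
    rw [map_C, MvPolynomial.algHom_C, MvPolynomial.algHom_C]
    rfl
  | add p q hp hq => rw [map_add, map_add, map_add, hp, hq, Int.cast_add]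
  | mul_X p c hp =>
    rw [map_mul, map_mul, map_mul, hp, map_X, aeval_X, aeval_X, Int.cast_mul]
    rfl

/-- the functional over `F` -/
theorem exists_LF (hEV : C_EV) (hCOM : C_COM) (hTRI : C_TRI) (hSYMM : C_SYMM) (hNV0 : C_NV0)
    (hESY : C_ESY) (F : Type) [Field F] (m k : ℕ) (T : Fil m k)
    (evF : MvPolynomial (Fin m ⊕ Fin k) F →ₐ[F] Module.End F (Perm (Pt m k) → F)) (hF : IsEv evF) :
    ∃ LF : (Perm (Pt m k) → F) →ₗ[F] F, ∀ q : MvPolynomial (Fin m ⊕ Fin k) F,
      LF (evF (aeval (es F m k) q) (v0 F m k)) = aeval (xyF F T) (aeval (es F m k) q) := by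
  obtain ⟨evZ, hZ⟩ := exists_evs hEV hCOM ℤ m k
  obtain ⟨L, hL⟩ := exists_L hTRI hSYMM hNV0 m k T evZ hZ
  let LF : (Perm (Pt m k) → F) →ₗ[F] F :=
    { toFun := fun ψ => ∑ g, ((L (Pi.single g 1) : ℤ) : F) * ψ g
      map_add' := by
        intro ψ ψ'
        rw [← Finset.sum_add_distrib]
        apply Finset.sum_congr rfl
        intro g _
        rw [Pi.add_apply, mul_add]
      map_smul' := by
        intro a ψ
        rw [RingHom.id_apply, smul_eq_mul, Finset.mul_sum]
        apply Finset.sum_congr rfl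
        intro g _
        rw [Pi.smul_apply, smul_eq_mul]
        ring }
  have hLF : ∀ ψ : Perm (Pt m k) → ℤ, LF (cst F ψ) = ((L ψ : ℤ) : F) := by
    intro ψ
    show ∑ g, ((L (Pi.single g 1) : ℤ) : F) * ((ψ g : ℤ) : F) = _
    have h1 : ψ = ∑ g, ψ g • (Pi.single g 1 : Perm (Pt m k) → ℤ) := by
      ext x
      rw [Finset.sum_apply, Finset.sum_eq_single x]
      · simp
      · intro y _ hy
        rw [Pi.smul_apply, Pi.single_eq_of_ne (Ne.symm hy), smul_zero]
      · intro h; exact absurd (Finset.mem_univ x) h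
    conv_rhs => rw [h1]
    rw [map_sum, Int.cast_sum]
    apply Finset.sum_congr rfl
    intro g _
    rw [map_smul, smul_eq_mul, Int.cast_mul, mul_comm]
  refine ⟨LF, fun q => ?_⟩
  induction q using MvPolynomial.induction_on' with
  | monomial u a =>
    have h1 : (monomial u a : MvPolynomial (Fin m ⊕ Fin k) F)
        = a • map (Int.castRingHom F) (monomial u 1) := by
      rw [map_monomial, smul_monomial, map_one, smul_eq_mul, mul_one]
    rw [h1, map_smul, map_smul, LinearMap.smul_apply, map_smul, map_smul, aeval_map, v0_cst,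
      evs_cst F m k evZ hZ evF hF, hLF, hL, eval_map']
    rw [(hESY ℤ m k).1]
    exact ⟨_, rfl⟩
  | add p q hp hq =>
    rw [map_add, map_add, LinearMap.add_apply, map_add, map_add, hp, hq]

end NV1

end Pool.Agent.H74.TF
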