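import Pool.Agent.H91.TF.Nv1b

set_option autoImplicit false

namespace Pool.Agent.H74.TF

open Finset Equiv MvPolynomial

namespace NV1

theorem coeff_prod (F σ : Type) [Field F] [Fintype σ] [DecidableEq σ] (a : σ → F) (j : ℕ) :
    (∏ x, (1 + Polynomial.C (a x) * Polynomial.X : Polynomial F)).coeff j
      = aeval a (esymm σ F j) := by
  rw [Finset.prod_one_add, Polynomial.finsetSum_coeff, esymm, map_sum,
    Finset.powersetCard_eq_filter, Finset.sum_filter]
  apply Finset.sum_congr rfl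
  intro t _
  rw [Finset.prod_mul_distrib, Finset.prod_const, ← map_prod, Polynomial.coeff_C_mul,
    Polynomial.coeff_X_pow]
  split_ifs with h1 h2 h2
  · rw [map_prod, mul_one]
    apply Finset.prod_congr rfl
    intro x _
    rw [aeval_X]
  · exact absurd h1.symm h2
  · exact absurd h2.symm h1
  · rw [mul_zero]

theorem nak (F S U : Type) [Field F] [CommRing S] [Algebra F S] [AddCommGroup U] [Module F U]
    [FiniteDimensional F U] (A : S →ₐ[F] Module.End F U) (θ : S →ₐ[F] F)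
    (hker : ∀ q, A q = 0 → θ q = 0) :
    ∃ (N : ℕ) (r : S), θ r = 1 ∧ ∀ q, θ q = 0 → A (q ^ N * r) = 0 := by
  have hfin : Module.Finite F (S ⧸ RingHom.ker A) :=
    Module.Finite.of_injective (Ideal.kerLiftAlg A).toLinearMap (Ideal.kerLiftAlg_injective A)
  have hart : IsArtinianRing (S ⧸ RingHom.ker A) := IsArtinianRing.of_finite F _
  let θ' : (S ⧸ RingHom.ker A) →ₐ[F] F :=
    Ideal.Quotient.liftₐ (RingHom.ker A) θ (fun a ha => hker a ha)
  have hθ' : ∀ q, θ' (Ideal.Quotient.mk _ q) = θ q := fun q => rfl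
  let I : Ideal (S ⧸ RingHom.ker A) := RingHom.ker θ'
  let f : ℕ →o (Submodule (S ⧸ RingHom.ker A) (S ⧸ RingHom.ker A))ᵒᵈ :=
    ⟨fun n => OrderDual.toDual (I ^ n), fun a b h => OrderDual.toDual_le_toDual.mpr
      (Ideal.pow_le_pow_right h)⟩
  obtain ⟨N, hN⟩ := IsArtinian.monotone_stabilizes f
  have hN1 : I ^ N = I ^ (N + 1) := hN (N + 1) (Nat.le_succ N)
  obtain ⟨r, hr1, hr2⟩ := Submodule.exists_sub_one_mem_and_smul_eq_zero_of_fg_of_le_smul I (I ^ N)
    (IsNoetherian.noetherian _) (by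
      rw [smul_eq_mul, ← pow_succ']
      exact hN1.le)
  obtain ⟨r₀, rfl⟩ := Ideal.Quotient.mk_surjective r
  refine ⟨N, r₀, ?_, fun q hq => ?_⟩
  · have h1 : θ' (Ideal.Quotient.mk _ r₀ - 1) = 0 := hr1
    rw [map_sub, map_one, hθ'] at h1
    exact sub_eq_zero.mp h1
  · have hqI : Ideal.Quotient.mk (RingHom.ker A) q ∈ I := by
      show θ' _ = 0
      rw [hθ', hq]
    have h2 := hr2 _ (Ideal.pow_mem_pow hqI N)
    rw [smul_eq_mul, ← map_pow, ← map_mul, Ideal.Quotient.eq_zero_iff_mem, mul_comm] at h2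
    exact h2

end NV1

end Pool.Agent.H74.TF
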